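import Pool.Agent.helper72.UP.All

/-!
# MP_7e34bc_co, Q2: `N(n,k)` in the upper range `k ≥ n/2 + 6 sqrt(n log n)`
-/

set_option autoImplicit false

namespace Pool.Agent.Results.MP_7e34bc_co.LargeWeight

open Finset

/-- The sum of the numbers `C(⌈n/2⌉, i) C(⌊n/2⌋, i)` for `1 ≤ i ≤ k/2`. -/
def value (n k : ℕ) : ℕ := ∑ i ∈ Icc 1 (k / 2), ((n + 1) / 2).choose i * (n / 2).choose i

/-- The sizes of the unit-free sets of nonzero 0/1 vectors with at most `k` ones. -/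
def sizes (n k : ℕ) : Set ℕ :=
  {m : ℕ | ∃ S : Finset (Fin n → ℝ),
    (∀ v ∈ S, (∀ i, v i = 0 ∨ v i = 1) ∧ v ≠ 0 ∧ (univ.filter (fun i => v i = 1)).card ≤ k) ∧
    (∀ i : Fin n, (Pi.single i 1 : Fin n → ℝ) ∉ Submodule.span ℝ (S : Set (Fin n → ℝ))) ∧
    S.card = m}

/-- The number of the sets `s` of indices (the empty one included) with `∑ i ∈ s, x i = 0`. -/
noncomputable def zeroSums {n : ℕ} (x : Fin n → ℝ) : ℕ := {s : Finset (Fin n) | ∑ i ∈ s, x i = 0}.ncard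

theorem result :
    (∀ n k : ℕ, 1 ≤ k → k ≤ n → (n : ℝ) / 2 + 6 * Real.sqrt (n * Real.log n) ≤ k →
      IsGreatest (sizes n k) (value n k)) ∧
    (∀ n k : ℕ, 1 ≤ k → k ≤ n → n * (n.choose (n / 2) - 1 - value n k) ≤ n.choose (n / 2) →
      IsGreatest (sizes n k) (value n k)) ∧
    ∀ (n : ℕ) (x : Fin n → ℝ), (∀ i, x i ≠ 0) → (∃ i j, |x i| ≠ |x j|) →
      n * zeroSums x ≤ (n - 1) * n.choose (n / 2) := by
  refine ⟨fun n k h1 h2 h3 => ?_, fun n k h1 h2 h3 => ?_, fun n x hx h => ?_⟩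
  · exact Pool.Agent.helper72.UP.ALL_asy n k h1 h2 h3
  · exact Pool.Agent.helper72.UP.ALL_crit n k h2 h3
  · have h4 := Pool.Agent.helper72.UP.ALL_sta n x hx h
    have h5 : zeroSums x = Pool.Agent.helper72.UP.cnt x 0 := by
      unfold zeroSums Pool.Agent.helper72.UP.cnt
      rw [← Set.ncard_coe_finset]
      congr 1
      ext s
      simp
    rw [h5]
    exact h4

end Pool.Agent.Results.MP_7e34bc_co.LargeWeight
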