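import Pool.Agent.helper37.MX.All

/-!
# MP_7e34bc_co, Q2: `N(n,k) = M(n,k)` for `2 ≤ k ≤ n/3` (one exception) and for all `k ≤ (1/2 - ε) n`, `n` large
-/

set_option autoImplicit false

namespace Pool.Agent.Results.MP_7e34bc_co.LowerHalf

open Finset

/-- The value of `M(n,k)` for `k ≥ 2`. -/
def uniform (n k : ℕ) : ℕ := ((n + 1) / k) * (n - (n + 1) / k).choose (k - 1)

/-- The number of the pairs `(s,t)` of subsets of a set of `n/2` and a set of `(n+1)/2` elements with `#s = #t ∈ {1,2}`. -/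
def balanced (n : ℕ) : ℕ := (n / 2) * ((n + 1) / 2) + (n / 2).choose 2 * ((n + 1) / 2).choose 2

/-- The sizes of the unit-free sets of nonzero 0/1 vectors with at most `k` ones. -/
def sizes (n k : ℕ) : Set ℕ :=
  {m : ℕ | ∃ S : Finset (Fin n → ℝ),
    (∀ v ∈ S, (∀ i, v i = 0 ∨ v i = 1) ∧ v ≠ 0 ∧ (univ.filter (fun i => v i = 1)).card ≤ k) ∧
    (∀ i : Fin n, (Pi.single i 1 : Fin n → ℝ) ∉ Submodule.span ℝ (S : Set (Fin n → ℝ))) ∧
    S.card = m}

theorem result :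
    (∀ n k : ℕ, 2 ≤ k → 3 * k ≤ n → ¬ (n = 12 ∧ k = 4) → IsGreatest (sizes n k) (uniform n k)) ∧
    (∀ ε : ℝ, 0 < ε → ∃ n0 : ℕ, ∀ n k : ℕ, n0 ≤ n → 2 ≤ k → (k : ℝ) ≤ (1 / 2 - ε) * n →
      IsGreatest (sizes n k) (uniform n k)) ∧
    (IsGreatest (sizes 12 4) 261 ∧ uniform 12 4 = 252) ∧
    (∀ n : ℕ, 1 ≤ n → IsGreatest (sizes n 1) 0) ∧
    (∀ n : ℕ, 2 ≤ n → IsGreatest (sizes n 2) (uniform n 2)) ∧
    (∀ n : ℕ, 3 ≤ n → IsGreatest (sizes n 3) (if n ≤ 5 then uniform n 2 else uniform n 3)) ∧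
    (∀ n : ℕ, 4 ≤ n → IsGreatest (sizes n 4) (if n ≤ 12 then balanced n else uniform n 4)) := by
  refine ⟨fun n k hk hn hne => ?_, fun ε hε => ?_, ⟨?_, ?_⟩, fun n hn => ?_, fun n hn => ?_, fun n hn => ?_, fun n hn => ?_⟩
  · exact Pool.Agent.helper37.NG.ALL n k hk hn hne
  · exact Pool.Agent.helper37.MX.ALL ε hε
  · have h := Pool.Agent.helper37.NG.ALL4 12 4 (by norm_num) (by norm_num) (by norm_num)
    have e : Pool.Agent.helper37.NK.val 12 4 = 261 := by decide +kernel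
    rw [e] at h
    exact h
  · decide +kernel
  · exact Pool.Agent.helper37.NG.ALL4 n 1 (by norm_num) (by norm_num) hn
  · exact Pool.Agent.helper37.NG.ALL4 n 2 (by norm_num) (by norm_num) hn
  · exact Pool.Agent.helper37.NG.ALL4 n 3 (by norm_num) (by norm_num) hn
  · exact Pool.Agent.helper37.NG.ALL4 n 4 (by norm_num) (by norm_num) hn

end Pool.Agent.Results.MP_7e34bc_co.LowerHalf
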