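import Pool.Agent.helper72.ODK.Fin

/-!
# MP_7e34bc_co, Q2: a lower bound for `N(n,k)` above both listed ones, odd `k` just above `n/2`
-/

set_option autoImplicit false

namespace Pool.Agent.Results.MP_7e34bc_co.OddAboveHalf

open Finset

/-- The second listed lower bound: the sum of the numbers `C(⌈n/2⌉, i) C(⌊n/2⌋, i)` for `1 ≤ i ≤ k/2`. -/
def value (n k : ℕ) : ℕ := ∑ i ∈ Icc 1 (k / 2), ((n + 1) / 2).choose i * (n / 2).choose i

/-- The new lower bound for `k = 2 K + 1`: with `a = ⌊(n-1)/2⌋` and `b = ⌊n/2⌋` the sum of the numbers `C(a,i) C(b,i)` for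
`1 ≤ i ≤ K` and of the numbers `C(a,i) C(b,i+2)` for `0 ≤ i < K`. -/
def newValue (n K : ℕ) : ℕ := ∑ i ∈ Icc 1 K, ((n - 1) / 2).choose i * (n / 2).choose i +
  ∑ i ∈ range K, ((n - 1) / 2).choose i * (n / 2).choose (i + 2)

/-- The sizes of the unit-free sets of nonzero 0/1 vectors with at most `k` ones. -/
def sizes (n k : ℕ) : Set ℕ :=
  {m : ℕ | ∃ S : Finset (Fin n → ℝ),
    (∀ v ∈ S, (∀ i, v i = 0 ∨ v i = 1) ∧ v ≠ 0 ∧ (univ.filter (fun i => v i = 1)).card ≤ k) ∧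
    (∀ i : Fin n, (Pi.single i 1 : Fin n → ℝ) ∉ Submodule.span ℝ (S : Set (Fin n → ℝ))) ∧
    S.card = m}

theorem result :
    (∀ n K : ℕ, 2 * K + 1 ≤ n → ∃ m ∈ sizes n (2 * K + 1), newValue n K ≤ m) ∧
    ∃ n0 : ℕ, ∀ n ≥ n0, ∀ K : ℕ, (n : ℝ) / 2 < 2 * (K : ℝ) + 1 →
      2 * (K : ℝ) + 1 ≤ n / 2 + Real.sqrt (n * Real.log n) / 8 →
      value n (2 * K + 1) < newValue n K ∧
      ∀ n₁ n₂ k₁ k₂ : ℕ, n₁ + n₂ = n → k₁ + k₂ = 2 * K + 1 → 1 ≤ k₁ → 1 ≤ k₂ →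
        n₁.choose k₁ * n₂.choose k₂ < newValue n K := by
  refine ⟨fun n K h => ?_, ?_⟩
  · exact Pool.Agent.helper72.UP.ODA_low n K (by omega)
  · exact Pool.Agent.helper72.UP.ODA_both

end Pool.Agent.Results.MP_7e34bc_co.OddAboveHalf
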